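import Pool.Agent.Q84.PG4
import Pool.Agent.Results.MP_70e905_nt.ConsecutiveHalf

set_option autoImplicit false

/-!
# Almost all multiples of highly divisible numbers are sums of two gaps between consecutive primes

A number `g` is a recurring gap (for the class `a` modulo `q`) if for every `η > 0` and arbitrarily large
`X` at least `X ^ (1 - η)` primes `p_n ≤ X`, `p_n ≡ a (mod q)`, are followed by the next prime at the
distance `g`, that is if the pattern `{0, g}` is realised so often as consecutive primes.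

Let `q` be squarefree, `a` coprime to `q` and `ε > 0`. There is `M` such that for EVERY multiple `N` of `M`
there is `T` such that in EVERY window of `l ≥ T` consecutive multiples of `N`, however far out, at least
`(1 - ε) l` are of the form `g + g'` with two recurring gaps `g`, `g'` for which `|g - g'| ≤ T`.

Proof: let `A` be the set of the `k` for which `N k / 2` is a recurring gap; it has at least
`(1/2 - ε') l` elements in every long window (`ConsecutiveHalf`). If `2 u` is not a sum of two elements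
of `A` near `u`, then `A` and its reflection in `u` are almost complementary near `u`. If this happens for
all `u` in a set `U` of positive density in a window, we choose `u₁, u₂, u₃` in `U`; the composition of
the three reflections has the fixed point `x = u₁ - u₂ + u₃`, and for most triples this is an odd cycle
of elements each of which is in `A` if and only if the next one is not, a contradiction.
-/

namespace Pool.Agent.Results.MP_92ef0c_nt.AlmostAllTwoGaps

open Filter Finset

/-- for every `η > 0` and arbitrarily large `X` there are at least `X ^ (1 - η)` primes `p_n ≤ X`,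
`p_n ≡ a (mod q)`, with `p_(n+1) = p_n + g` -/
def RecGap (q a g : ℕ) : Prop :=
  ∀ η : ℝ, 0 < η → ∃ᶠ X : ℝ in atTop,
    X ^ (1 - η) ≤ ({n : ℕ | (Nat.nth Nat.Prime n : ℝ) ≤ X ∧ Nat.nth Nat.Prime n ≡ a [MOD q] ∧
      Nat.nth Nat.Prime (n + 1) = Nat.nth Nat.Prime n + g}.ncard : ℝ)

open Pool.Agent.Q84.PG

lemma card_eq (P : ℕ → Prop) (u l : ℕ) :
    ({k : ℕ | u < k ∧ k ≤ u + l ∧ P k}.ncard) = (nwin {k | P k} u l).card := by
  rw [← Set.ncard_coe_finset]
  congr 1
  ext k
  simp only [Set.mem_ofPred_eq, Finset.mem_coe, mem_nwin]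
  tauto

/-- **Almost all multiples of `N` are sums of two recurring gaps close to each other.** -/
theorem result (q a : ℕ) (hsq : Squarefree q) (ha : Nat.Coprime a q) (ε : ℝ) (hε : 0 < ε) :
    ∃ M : ℕ, 0 < M ∧ ∀ N : ℕ, 0 < N → M ∣ N → ∃ T : ℕ, ∀ l : ℕ, T ≤ l → ∀ u : ℕ,
      (1 - ε) * (l : ℝ) ≤ ({k : ℕ | u < k ∧ k ≤ u + l ∧ ∃ g g' : ℕ, RecGap q a g ∧
        RecGap q a g' ∧ g + g' = N * k ∧ |(g : ℤ) - g'| ≤ T}.ncard : ℝ) := by
  classical
  obtain ⟨M, hM, h⟩ := MP_70e905_nt.ConsecutiveHalf.result q a hsq ha (ε / 31) (by positivity)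
  refine ⟨2 * M, by omega, fun N hN hd => ?_⟩
  obtain ⟨r, rfl⟩ := hd
  have hr : 0 < r := Nat.pos_of_ne_zero (by rintro rfl; simp at hN)
  set m := M * r with hm
  have hm0 : 0 < m := Nat.mul_pos hM hr
  obtain ⟨L, hL⟩ := h m hm0 (Dvd.intro _ rfl)
  set G : Set ℕ := {k | RecGap q a (m * k)} with hG
  have hd : ∀ u l : ℕ, L ≤ l → (1 / 2 - ε / 31) * l ≤ ((nwin G u l).card : ℝ) := by
    intro u l hl
    have h1 := hL l hl u
    rw [card_eq (fun k => ∀ η : ℝ, 0 < η → ∃ᶠ x : ℝ in atTop,
        x ^ (1 - η) ≤ ({n : ℕ | (Nat.nth Nat.Prime n : ℝ) ≤ x ∧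
          Nat.nth Nat.Prime n ≡ a [MOD q] ∧
          Nat.nth Nat.Prime (n + 1) = Nat.nth Nat.Prime n + m * k}.ncard : ℝ))] at h1
    exact h1
  obtain ⟨T, hT⟩ := almost (by positivity : 0 < ε / 31) hd
  refine ⟨2 * m * T + T, fun l hl u => ?_⟩
  have h1 := hT l (by omega) u
  have h2 : (1 - 31 * (ε / 31)) * (l : ℝ) = (1 - ε) * l := by ring
  rw [h2] at h1
  refine h1.trans ?_
  rw [Nat.cast_le, card_eq (fun k => ∃ g g' : ℕ, RecGap q a g ∧
        RecGap q a g' ∧ g + g' = 2 * M * r * k ∧ |(g : ℤ) - g'| ≤ ((2 * m * T + T : ℕ) : ℤ))]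
  apply Finset.card_le_card
  intro k hk
  obtain ⟨h3, a', ha', b', hb', hab, h4⟩ := mem_nwin.1 hk
  rw [mem_nwin]
  refine ⟨h3, m * a', m * b', ha', hb', ?_, ?_⟩
  · calc m * a' + m * b' = m * (a' + b') := by ring
      _ = m * (2 * k) := by rw [hab]
      _ = 2 * M * r * k := by rw [hm]; ring
  · have h5 : (a' : ℤ) + b' = 2 * k := by exact_mod_cast hab
    have h6 : ((m * a' : ℕ) : ℤ) - ((m * b' : ℕ) : ℤ) = m * (2 * ((a' : ℤ) - k)) := by
      push_cast
      have h7 : (b' : ℤ) = 2 * k - a' := by linarith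
      rw [h7]; ring
    rw [h6, abs_mul, abs_mul]
    have h8 : (0 : ℤ) ≤ m := by positivity
    have h9 : (0 : ℤ) ≤ T := by positivity
    rw [abs_of_nonneg h8, abs_of_nonneg (by norm_num : (0 : ℤ) ≤ 2)]
    calc (m : ℤ) * (2 * |(a' : ℤ) - k|) ≤ m * (2 * T) := by gcongr
      _ ≤ ((2 * m * T + T : ℕ) : ℤ) := by push_cast; nlinarith

end Pool.Agent.Results.MP_92ef0c_nt.AlmostAllTwoGaps
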