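import Pool.Agent.Q117.CR.Size

/-!
# Chen's theorem in every class modulo large smooth moduli

For large `X` let `Q` be the product of (almost all) primes `≤ (log X) / 10 ^ 5`. For EVERY divisor `q` of `Q` and EVERY class `u`
modulo `q` such that `u` and `h - u` are prime to `q` the number of primes `p ≡ u (mod q)` in a window for which `|h - p|` is
a product of at most two large primes has at least the right order of magnitude, uniformly in `h ≠ 0`, `|h| ≤ X`, and inside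
arbitrary sifted sets.
-/

set_option autoImplicit false

namespace Pool.Agent.Results.MP_92ef0c_nt.ChenEveryClass

open Finset Filter
open Pool.Agent.Y843.HS (Pr Pr_mem Pr_prime)
open Pool.Agent.Y843.HG (Z0 SP)
open Pool.Agent.Y843.CH
open Pool.Agent.Q117.CR

/-- the product of the primes `≤ (log X) / 10 ^ 5` outside of `S` and different from `ps` -/
noncomputable def Q (X : ℕ) (S : Finset ℕ) (ps : ℕ) : ℕ :=
  ∏ p ∈ (range (⌊Real.log X / 100000⌋₊ + 1)).filter (fun p => p.Prime ∧ p ∉ S ∧ p ≠ ps), p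

/-- few removed primes: `∑_{p ∈ S} 1 / p ≤ 7 / (log log X) ^ 2`, every prime of `S` is at least `(log log X) ^ 2`, and `Q` is still at least
`X ^ (1 / 300000)` -/
structure Few (X : ℕ) (S : Finset ℕ) (ps : ℕ) : Prop where
  /-- the primes of `S` are large -/
  large : ∀ p ∈ S, p.Prime ∧ (Real.log (Real.log X)) ^ 2 ≤ (p : ℝ)
  /-- and few -/
  few : ∑ p ∈ S, (1 : ℝ) / p ≤ 7 / (Real.log (Real.log X)) ^ 2
  /-- `Q` is large -/
  size : (X : ℝ) ^ (1 / 300000 : ℝ) ≤ (Q X S ps : ℝ)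

/-- the residues `x` modulo `l` with `l ∣ x` or `l ∣ h - x` or `x ∈ F l` -/
def Bad (h : ℤ) (F : ℕ → Finset ℕ) (l : ℕ) : Finset ℕ :=
  (range l).filter (fun x => x = 0 ∨ (l : ℤ) ∣ h - x ∨ x ∈ F l)

/-- the primes `p` of the class `u` modulo `q` in the window `(A, B]` outside of the classes of `F` modulo the primes `≤ X ^ (1 / t)`, for which
`|h - p|` is not `0`, has at most two prime factors (with multiplicity), and these are larger than `X ^ (1 / 9)` -/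
def Good (t X : ℕ) (h : ℤ) (A B : ℕ) (F : ℕ → Finset ℕ) (q u : ℕ) : Set ℕ :=
  {p : ℕ | p.Prime ∧ A < p ∧ p ≤ B ∧ p ≡ u [MOD q] ∧ (h - p).natAbs ≠ 0 ∧ (h - p).natAbs.primeFactorsList.length ≤ 2 ∧
    (∀ l : ℕ, l.Prime → l ∣ (h - p).natAbs → (X : ℝ) ^ (1 / 9 : ℝ) < l) ∧
    ∀ l : ℕ, l.Prime → (l : ℝ) ≤ (X : ℝ) ^ (1 / (t : ℝ)) → p % l ∉ F l}

theorem mem_Bad {h : ℤ} {F : ℕ → Finset ℕ} {l x : ℕ} :
    x ∈ Bad h F l ↔ x < l ∧ (x = 0 ∨ (l : ℤ) ∣ h - x ∨ x ∈ F l) := by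
  unfold Bad
  rw [mem_filter, mem_range]

theorem zero_mem {h : ℤ} {F : ℕ → Finset ℕ} {l : ℕ} (hl : 0 < l) : 0 ∈ Bad h F l := mem_Bad.2 ⟨hl, Or.inl rfl⟩

theorem Z0_eq {h : ℤ} {F : ℕ → Finset ℕ} {l : ℕ} (hl : 0 < l) : Z0 (fun l => (Bad h F l).erase 0) l = Bad h F l := by
  unfold Z0
  exact insert_erase (zero_mem hl)

theorem bad_card {h : ℤ} {F : ℕ → Finset ℕ} {l r : ℕ} (hl : 0 < l) (hF : (F l).card ≤ r) :
    ((Bad h F l).erase 0).card ≤ r + 1 := by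
  have h1 : (Bad h F l).erase 0 ⊆ insert (hr h l) (F l) := by
    intro x hx
    rw [mem_erase, mem_Bad] at hx
    rw [mem_insert]
    obtain ⟨h0, h1, h2 | h2 | h2⟩ := hx
    · exact absurd h2 h0
    · left
      have h3 : hr (x : ℤ) l = hr h l := by
        rw [hr_eq_iff _ _ hl, Int.modEq_iff_dvd]
        exact h2
      rw [← h3, hr_nat x hl, Nat.mod_eq_of_lt h1]
    · exact Or.inr h2
  exact (card_le_card h1).trans ((card_insert_le _ _).trans (by omega))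

theorem dat {r Y : ℕ} {h : ℤ} {F : ℕ → Finset ℕ}
    (hF : ∀ l ∈ Pr 0 Y, (F l).card ≤ r ∧ (Bad h F l).card < l) :
    Dat (r + 1) Y h (fun l => (Bad h F l).erase 0) := by
  constructor
  · intro l hl
    have hl0 := (Pr_prime hl).pos
    obtain ⟨h1, h2⟩ := hF l hl
    refine ⟨bad_card hl0 h1, ?_, notMem_erase 0 _, ?_⟩
    · have h3 := card_erase_of_mem (zero_mem (h := h) (F := F) hl0)
      have h4 : 0 < (Bad h F l).card := card_pos.2 ⟨0, zero_mem hl0⟩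
      simp only
      rw [h3]
      omega
    · intro c hc
      exact (mem_Bad.1 (mem_of_mem_erase hc)).1
  · intro l hl
    have hl0 := (Pr_prime hl).pos
    rw [Z0_eq hl0, mem_Bad]
    refine ⟨hr_lt h hl0, Or.inr (Or.inl ?_)⟩
    rw [hr_cast h hl0]
    exact Int.dvd_self_sub_emod

/-- sizes -/
theorem ev (t : ℕ) (ht : 1 ≤ t) : ∃ X₀ : ℕ, ∀ X : ℕ, X₀ ≤ X →
    (Pool.Agent.H378R2.yy ((X : ℝ) ^ (1 / 100 : ℝ)) : ℝ) ≤ (X : ℝ) ^ (1 / (t : ℝ)) ∧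
    (X : ℝ) ^ (1 / 9 : ℝ) < (Nat.sqrt X : ℝ) ^ (1 / 4 : ℝ) := by
  obtain ⟨X1, h1⟩ := ev_cond t 0 0 0 ht 1 one_pos 0
  obtain ⟨X2, h2⟩ := ev_fin t 0 ht 1 1 one_pos one_pos
  obtain ⟨X3, h3⟩ := Filter.eventually_atTop.1 (((tendsto_rpow_atTop (show (0 : ℝ) < 1 / 9 by norm_num)).comp
    (tendsto_natCast_atTop_atTop (R := ℝ))).eventually (eventually_ge_atTop (2 : ℝ)))
  refine ⟨max (max X1 X2) (max X3 1), fun X hX => ?_⟩
  simp only [max_le_iff] at hX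
  obtain ⟨⟨g1, g2⟩, g3, g4⟩ := hX
  refine ⟨(h1 X g1).2.2.2.2.1, lt_of_le_of_lt ?_ (h2 X g2).2.2.2.2⟩
  have hX0 : (0 : ℝ) < X := by exact_mod_cast (by omega : 0 < X)
  have h4 : (2 : ℝ) ≤ (X : ℝ) ^ (1 / 9 : ℝ) := h3 X g3
  have h5 : (X : ℝ) ^ (8 / 9 : ℝ) ≤ X / 2 := by
    rw [le_div_iff₀ (by norm_num)]
    calc (X : ℝ) ^ (8 / 9 : ℝ) * 2 ≤ (X : ℝ) ^ (8 / 9 : ℝ) * (X : ℝ) ^ (1 / 9 : ℝ) :=
          mul_le_mul_of_nonneg_left h4 (by positivity)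
      _ = X := by rw [← Real.rpow_add hX0]; norm_num
  calc (X : ℝ) ^ (1 / 9 : ℝ) = ((X : ℝ) ^ (8 / 9 : ℝ)) ^ (1 / 8 : ℝ) := by
        rw [← Real.rpow_mul hX0.le]; norm_num
    _ ≤ ((X : ℝ) / 2) ^ (1 / 8 : ℝ) := Real.rpow_le_rpow (by positivity) h5 (by norm_num)

theorem Q_eq {X : ℕ} (hX : 0 < X) (S : Finset ℕ) (ps : ℕ) : Q X S ps = WX (X : ℝ) S ps := by
  unfold Q WX Pool.Agent.H378R2.WW Pool.Agent.H378R2.PW
  rw [yy_scale (by exact_mod_cast hX)]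
  apply prod_congr _ (fun _ _ => rfl)
  ext p
  rw [mem_filter, mem_filter, mem_range, mem_Icc]
  constructor
  · rintro ⟨h1, h2⟩
    exact ⟨⟨h2.1.pos, by omega⟩, h2⟩
  · rintro ⟨⟨_, h1⟩, h2⟩
    exact ⟨by omega, h2⟩

theorem result (r : ℕ) : ∃ t : ℕ, 1 ≤ t ∧ ∃ c : ℝ, 0 < c ∧ ∃ ps : ℕ → ℕ, ∀ θ : ℝ, 0 < θ → θ ≤ 1 → ∃ X₀ : ℕ, ∀ X : ℕ, X₀ ≤ X →
    ∀ h : ℤ, h ≠ 0 → |h| ≤ X → ∀ A B : ℕ, Real.sqrt X ≤ A → A ≤ B → B ≤ X → θ * X ≤ (B : ℝ) - A →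
    ∃ S : Finset ℕ, Few X S (ps X) ∧
      ∀ F : ℕ → Finset ℕ, (∀ l : ℕ, l.Prime → (l : ℝ) ≤ (X : ℝ) ^ (1 / (t : ℝ)) → (F l).card ≤ r ∧ (Bad h F l).card < l) →
      ∀ q : ℕ, q ∣ Q X S (ps X) → ∀ u : ℕ, (∀ l : ℕ, l.Prime → l ∣ q → u % l ∉ Bad h F l) →
        c * (((B : ℝ) - A) / q * ∏ l ∈ (range (⌊(X : ℝ) ^ (1 / (t : ℝ))⌋₊ + 1)).filter (fun l => l.Prime ∧ ¬ l ∣ q),
          (1 - ((Bad h F l).card : ℝ) / l)) ≤ ((Good t X h A B F q u).ncard : ℝ) := by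
  classical
  obtain ⟨t, ht, c, hc, X1, PP, hPP, hW⟩ := chenW (r + 1)
  obtain ⟨X2, hX2⟩ := ev t ht
  obtain ⟨X3, hX3⟩ := WX_size
  refine ⟨t, ht, c, hc, PP, fun θ hθ hθ1 => ?_⟩
  obtain ⟨X4, hX4⟩ := hW θ hθ hθ1
  refine ⟨max (max X1 X2) (max ⌈X3⌉₊ (max X4 1)), ?_⟩
  intro X hX h hh hhX A B hA hAB hBX hBA
  simp only [max_le_iff] at hX
  obtain ⟨⟨g1, g2⟩, g3, g4, g5⟩ := hX
  have hX0 : (0 : ℝ) < X := by exact_mod_cast (by omega : 0 < X)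
  have hsA : Nat.sqrt X ≤ A := by
    have h1 : (X : ℝ) < ((A : ℝ) + 1) ^ 2 := by
      have h2 := Real.sq_sqrt hX0.le
      have h3 := Real.sqrt_nonneg (X : ℝ)
      nlinarith
    have h2 : X < (A + 1) ^ 2 := by exact_mod_cast h1
    have := Nat.sqrt_lt'.2 h2
    omega
  have hhn : h.natAbs ≤ X := by
    have : ((h.natAbs : ℕ) : ℤ) ≤ X := by
      rw [Int.natCast_natAbs]
      exact_mod_cast hhX
    exact_mod_cast this
  obtain ⟨S, hS, hmain⟩ := hX4 X g4 h hh hhn A B hsA hAB hBX hBA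
  obtain ⟨k1, k2, k3⟩ := hX3 X ((Nat.le_ceil _).trans (by exact_mod_cast g3)) S (PP X) hS
  refine ⟨S, ⟨fun p hp => ⟨(hS.1 p hp).1, k1 p hp⟩, k2, ?_⟩, ?_⟩
  · rw [Q_eq (by omega)]
    exact k3
  intro F hF q hq u hu
  obtain ⟨Y, hY⟩ : ∃ Y : ℕ, Y = ⌊(X : ℝ) ^ (1 / (t : ℝ))⌋₊ := ⟨_, rfl⟩
  rw [← hY] at hmain ⊢
  have hYle : ∀ l : ℕ, l ≤ Y ↔ (l : ℝ) ≤ (X : ℝ) ^ (1 / (t : ℝ)) := by
    intro l
    rw [hY, Nat.le_floor_iff (by positivity)]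
  have hF' : ∀ l ∈ Pr 0 Y, (F l).card ≤ r ∧ (Bad h F l).card < l := by
    intro l hl
    exact hF l (Pr_prime hl) ((hYle l).1 (Pr_mem.1 hl).1.2)
  have hD : Dat (r + 1) Y h (fun l => (Bad h F l).erase 0) := dat hF'
  rw [Q_eq (by omega)] at hq
  have h5 := classes_of (N := Nat.sqrt X) (Y := Y) (q := q) (u := u) hc.le hAB hD rfl (by
      intro p hp hd
      rw [prime_dvd_WX hp] at hd
      rw [hYle]
      refine le_trans ?_ (hX2 X g2).1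
      exact_mod_cast hd.1) (hmain _ hD) hq (by
      intro l hl hd
      rw [Z0_eq hl.pos]
      exact hu l hl hd)
  have h6 : ∏ l ∈ (range (Y + 1)).filter (fun l => l.Prime ∧ ¬ l ∣ q), (1 - ((Bad h F l).card : ℝ) / l) =
      ∏ l ∈ (Pr 0 Y).filter (fun l => ¬ l ∣ q), (1 - ((Z0 (fun l => (Bad h F l).erase 0) l).card : ℝ) / l) := by
    apply prod_congr
    · ext l
      rw [mem_filter, mem_filter, mem_range, Pr_mem]
      constructor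
      · rintro ⟨h1, h2, h3⟩
        exact ⟨⟨⟨h2.pos, by omega⟩, h2⟩, h3⟩
      · rintro ⟨⟨⟨_, h1⟩, h2⟩, h3⟩
        exact ⟨by omega, h2, h3⟩
    · intro l hl
      rw [Z0_eq (Pr_prime (mem_filter.1 hl).1).pos]
  rw [h6]
  refine h5.trans ?_
  rw [← Set.ncard_coe_finset]
  have hfin : (Good t X h A B F q u).Finite := by
    refine (Set.finite_Iic B).subset fun p hp => ?_
    exact hp.2.2.1
  have hsub : (((GD (Nat.sqrt X) X Y h (fun l => (Bad h F l).erase 0)).filter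
      (fun p => (A < p ∧ p ≤ B) ∧ p ≡ u [MOD q]) : Finset ℕ) : Set ℕ) ⊆ Good t X h A B F q u := by
    intro p hp
    rw [mem_coe, mem_filter] at hp
    obtain ⟨hp, ⟨hpA, hpB⟩, hpu⟩ := hp
    unfold GD SP at hp
    rw [mem_filter, mem_filter] at hp
    obtain ⟨⟨-, hpp, hpY⟩, hne, hlen, hfac⟩ := hp
    refine ⟨hpp, hpA, hpB, hpu, ?_, hlen, ?_, ?_⟩
    · omega
    · intro l hl hd
      exact lt_of_lt_of_le (hX2 X g2).2 (hfac l hl hd)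
    · intro l hl hlX hmem
      have h7 := hpY l (Pr_mem.2 ⟨⟨hl.pos, (hYle l).2 hlX⟩, hl⟩)
      rw [Z0_eq hl.pos] at h7
      exact h7 (mem_Bad.2 ⟨Nat.mod_lt _ hl.pos, Or.inr (Or.inr hmem)⟩)
  exact_mod_cast Set.ncard_le_ncard hsub hfin

end Pool.Agent.Results.MP_92ef0c_nt.ChenEveryClass
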