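import Pool.Agent.Q138.GS.FamE

/-!
# Prime tuples with dilated members in progressions: Siegel-Walfisz uniformity and all log-power savings

For almost all `(α_1, ..., α_r)`, `α_i > 0`, the number of primes `p ≤ N`, `p ≡ a (mod q)`, for which all the
integer parts of `α_i (p + d_i) + β_i` are primes is `1 / φ(q)` times the sum over `n ≤ N` of
`1 / (log n * log (α_1 n) * ... * log (α_r n))`, with an error at most `N / (log N) ^ C`, uniformly in all moduli
`q ≤ (log N) ^ B`, all reduced classes `a` and all integer shifts `|d_i| ≤ (log N) ^ B`, for all `B` and `C`.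
-/

set_option autoImplicit false

open Finset Filter Topology MeasureTheory
open scoped Classical

namespace Pool.Agent.Results.MP_92ef0c_nt.RealDilationsSmallModuli

/-- the logarithm of `max x 3` -/
noncomputable def L (x : ℝ) : ℝ := Real.log (max x 3)

/-- the number of elements `n` of `S` with `1 ≤ n ≤ N` -/
noncomputable def count (S : Set ℕ) (N : ℕ) : ℝ := ((Icc 1 N).filter (fun n => n ∈ S)).card

/-- the primes `p` in the class of `a` modulo `q` for which all the integer parts of `α_i (p + d_i) + β_i` are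
primes -/
def tuples {r : ℕ} (α β : Fin r → ℝ) (q a : ℕ) (d : Fin r → ℤ) : Set ℕ :=
  {p : ℕ | p.Prime ∧ p ≡ a [MOD q] ∧ ∀ i, (⌊α i * ((p : ℝ) + d i) + β i⌋₊).Prime}

/-- the expected number of prime tuples up to `N`, without congruence conditions -/
noncomputable def expected {r : ℕ} (α : Fin r → ℝ) (N : ℕ) : ℝ :=
  ∑ n ∈ Icc 1 N, 1 / (L n * ∏ i, L (α i * n))

theorem result :
    ∀ (k : ℕ) (β : Fin (k + 1) → ℝ), ∀ᵐ α : Fin (k + 1) → ℝ, (∀ i, 0 < α i) →
      ∀ B C : ℕ, ∀ᶠ N : ℕ in atTop, ∀ (q a : ℕ) (d : Fin (k + 1) → ℤ),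
        1 ≤ q → (q : ℝ) ≤ (Real.log N) ^ B → a.Coprime q → (∀ i, |(d i : ℝ)| ≤ (Real.log N) ^ B) →
          |count (tuples α β q a d) N - expected α N / (q.totient : ℝ)| ≤ N / (Real.log N) ^ C := by
  intro k β
  have h := Pool.Agent.Q138.GS.tx_count k β
  unfold Pool.Agent.Q138.GS.pm at h
  rw [ae_restrict_iff' (Pool.Agent.Q138.GS.pos_meas _)] at h
  filter_upwards [h] with α hα hpos B C
  have hlogt : Tendsto (fun N : ℕ => Real.log (N : ℝ)) atTop atTop :=
    Real.tendsto_log_atTop.comp tendsto_natCast_atTop_atTop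
  filter_upwards [hα hpos (B + 1) (C + 1), hlogt.eventually_ge_atTop 3, eventually_ge_atTop 100,
    Pool.Agent.Q138.GS.LL_small B, Pool.Agent.Q138.GS.sq_small 1 one_pos (C + 1)] with
    N h1 hl3 hN100 hL hsq q a d hq hqB ha hd
  have hNr : (100 : ℝ) ≤ N := by exact_mod_cast hN100
  have hN0 : (0 : ℝ) < N := by linarith
  set t := Pool.Agent.Q138.GS.LL B N with ht
  have hint : ∀ z : ℤ, |(z : ℝ)| ≤ (Real.log N) ^ B → -(t : ℤ) ≤ z ∧ z ≤ t := by
    intro z hz
    have h2 : z.natAbs ≤ t := by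
      rw [ht]
      unfold Pool.Agent.Q138.GS.LL
      refine Nat.le_floor ?_
      rw [Nat.cast_natAbs, Int.cast_abs]
      exact hz
    omega
  have hbig : 2 * t ≤ Pool.Agent.Q138.GS.LL (B + 1) N := by
    unfold Pool.Agent.Q138.GS.LL
    refine Nat.le_floor ?_
    push_cast
    have htB : (t : ℝ) ≤ (Real.log N) ^ B := Nat.floor_le (by positivity)
    have h2 : (1 : ℝ) ≤ (Real.log N) ^ B := one_le_pow₀ (by linarith)
    rw [pow_succ]
    nlinarith
  have hqt : q ≤ t := Nat.le_floor hqB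
  have haq : a % q < q := Nat.mod_lt a (by omega)
  have hcop : (a % q).Coprime q := by
    unfold Nat.Coprime
    rw [← Nat.gcd_rec, Nat.gcd_comm]
    exact ha
  set x : Pool.Agent.Q138.GS.Ix k := (q, a % q, t, fun i => (d i + t).toNat) with hx
  have hxm : x ∈ Pool.Agent.Q138.GS.Xs k (B + 1) N := by
    rw [Pool.Agent.Q138.GS.mem_Xs]
    refine ⟨?_, ?_, ?_, fun i => ?_⟩
    · rw [hx]
      simp only
      omega
    · rw [hx]
      simp only
      omega
    · rw [hx]
      simp only
      omega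
    · have := hint (d i) (hd i)
      rw [hx]
      simp only
      omega
  have h2 := h1 x hxm hq haq hcop
  have h3 : |count (tuples α β q a d) N - Pool.Agent.Q138.GS.ct (Pool.Agent.Q138.GS.Tx k α β x) N| ≤ t := by
    have e0 : count (tuples α β q a d) N = Pool.Agent.Q138.GS.ct (fun n => n ∈ tuples α β q a d) N := rfl
    rw [e0]
    refine Pool.Agent.Q138.GS.ct_shift _ _ N t fun n => ?_
    unfold tuples Pool.Agent.Q138.GS.Tx
    rw [Set.mem_setOf_eq]
    have ei : ∀ i, α i * (((n + t : ℕ) : ℝ) + d i) + β i = α i * ((n + x.2.2.2 i : ℕ) : ℝ) + β i := by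
      intro i
      have h5 := hint (d i) (hd i)
      have h6 : (((d i + t).toNat : ℕ) : ℤ) = d i + t := Int.toNat_of_nonneg (by omega)
      have h7 : (((d i + t).toNat : ℕ) : ℝ) = (d i : ℝ) + t := by
        rw [← Int.cast_natCast (R := ℝ), h6]
        push_cast
        ring
      rw [hx]
      simp only
      rw [Nat.cast_add n (d i + t).toNat, h7]
      push_cast
      ring
    simp only [ei]
    rfl
  have h4 : (t : ℝ) ≤ N / (Real.log N) ^ (C + 1) := by
    rw [le_div_iff₀ (by positivity)]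
    have h5 : (t : ℝ) ≤ Real.sqrt N := by
      have := Real.sqrt_nonneg (N : ℝ)
      linarith
    calc (t : ℝ) * (Real.log N) ^ (C + 1) ≤ 1 * Real.sqrt N * (Real.log N) ^ (C + 1) := by
          rw [one_mul]
          gcongr
      _ ≤ N := hsq
  have e1 : expected α N / (q.totient : ℝ) = 1 / (x.1.totient : ℝ) * ∑ n ∈ Icc 1 N, Pool.Agent.Q138.GS.hd k α n := by
    rw [one_div_mul_eq_div]
    rfl
  rw [e1]
  have e2 : count (tuples α β q a d) N - 1 / (x.1.totient : ℝ) * ∑ n ∈ Icc 1 N, Pool.Agent.Q138.GS.hd k α n =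
      (count (tuples α β q a d) N - Pool.Agent.Q138.GS.ct (Pool.Agent.Q138.GS.Tx k α β x) N) +
      (Pool.Agent.Q138.GS.ct (Pool.Agent.Q138.GS.Tx k α β x) N -
        1 / (x.1.totient : ℝ) * ∑ n ∈ Icc 1 N, Pool.Agent.Q138.GS.hd k α n) := by ring
  rw [e2]
  refine (abs_add_le _ _).trans ((add_le_add (h3.trans h4) h2).trans ?_)
  have e3 : (N : ℝ) / (Real.log N) ^ C = Real.log N * (N / (Real.log N) ^ (C + 1)) := by
    rw [pow_succ]
    field_simp
  rw [e3]
  have : 0 < (N : ℝ) / (Real.log N) ^ (C + 1) := by positivity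
  nlinarith

end Pool.Agent.Results.MP_92ef0c_nt.RealDilationsSmallModuli
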