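import Pool.Agent.Q117.LF.Main5

/-!
MP_92ef0c_nt (prime pairs with fixed even difference in arithmetic progressions): for every finite set of even differences and every modulus `q`, every string of
differences and residue classes occurs for consecutive almost prime pairs with the right order of magnitude, with an actual prime and a product of at most two primes at
any two places of the string.
-/

set_option autoImplicit false

namespace Pool.Agent.Results.MP_92ef0c_nt.StringsOfClasses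

/-- all prime factors of `m` are `> z` (so `0` is not rough) -/
def Rough (z : ℝ) (m : ℤ) : Prop := ∀ p : ℕ, p.Prime → (p : ℤ) ∣ m → z < p

/-- at most two prime factors (with multiplicity), all `> z` -/
def AtMostTwo (z : ℝ) (m : ℤ) : Prop := m.natAbs.primeFactorsList.length ≤ 2 ∧ Rough z m

/-- `m, m + d` is an almost prime pair -/
def Pair (z : ℝ) (d : ℕ) (m : ℤ) : Prop := Rough z m ∧ Rough z (m + d)

/-- the pairs `(m j, m j + d (τ j))`, `m 0 < ... < m J ≤ m 0 + L`, are almost prime, and there are no other almost prime pairs `(k, k + d γ)` with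
`|k - m 0| ≤ L` -/
def Run (z L : ℝ) {g J : ℕ} (d : Fin g → ℕ) (τ : Fin (J + 1) → Fin g) (m : Fin (J + 1) → ℕ) : Prop :=
  StrictMono m ∧ (∀ j, Pair z (d (τ j)) (m j) ∧ (m j : ℝ) ≤ m 0 + L) ∧ ∀ γ, ∀ k : ℤ, |((k - m 0 : ℤ) : ℝ)| ≤ L → Pair z (d γ) k → ∃ j, k = m j ∧ γ = τ j

/-- the `n ∈ (X, 2X]` which begin such a run `n = m 0, ..., m J` with `m j ≡ a j (mod q)` such that `m j₁ + h₁` is prime and `m j₂ + h₂` has at most two prime
factors, all `> X ^ (1/9)` -/
def Strings (q : ℕ) (z X L : ℝ) {g J : ℕ} (d : Fin g → ℕ) (τ : Fin (J + 1) → Fin g) (a : Fin (J + 1) → ℕ) (j₁ j₂ : Fin (J + 1)) (h₁ h₂ : ℕ) : Set ℕ :=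
  {n : ℕ | X < n ∧ (n : ℝ) ≤ 2 * X ∧ ∃ m : Fin (J + 1) → ℕ, m 0 = n ∧ Run z L d τ m ∧ (∀ j, m j ≡ a j [MOD q]) ∧ (m j₁ + h₁).Prime ∧
    AtMostTwo (X ^ (1 / 9 : ℝ)) ((m j₂ + h₂ : ℕ) : ℤ)}

theorem result : ∀ (J g q : ℕ) (d : Fin g → ℕ) (τ : Fin (J + 1) → Fin g) (a : Fin (J + 1) → ℕ), 1 ≤ q → (∀ γ, Even (d γ) ∧ 0 < d γ) → Function.Injective d →
    (∀ j, (a j).Coprime q ∧ (a j + d (τ j)).Coprime q) →
    ∀ (j₁ j₂ : Fin (J + 1)) (h₁ h₂ : ℕ), (h₁ = 0 ∨ h₁ = d (τ j₁)) → (h₂ = 0 ∨ h₂ = d (τ j₂)) → (j₁ ≠ j₂ ∨ h₁ ≠ h₂) →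
    ∃ t : ℕ, 1 ≤ t ∧ ∃ c : ℝ, 0 < c ∧ ∃ ν : ℝ, 0 < ν ∧ ∃ X0 : ℝ, ∀ X : ℝ, X0 ≤ X →
      c * (X / Real.log X ^ 2) ≤ ((Strings q (X ^ (1 / (t : ℝ))) X (ν * Real.log X ^ 2) d τ a j₁ j₂ h₁ h₂).ncard : ℝ) := by
  intro J g q d τ a hq hd hinj ha j₁ j₂ h₁ h₂ e₁ e₂ hne
  have m1 : h₁ ∈ ({0, d (τ j₁)} : Finset ℕ) := by rcases e₁ with rfl | rfl <;> simp
  have m2 : h₂ ∈ ({0, d (τ j₂)} : Finset ℕ) := by rcases e₂ with rfl | rfl <;> simp
  obtain ⟨t, ht, c, hc, ν, hν, X0, h⟩ := Pool.Agent.Q117.LF.stcC J g q 2 (fun γ => {0, d γ}) hq (by norm_num)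
    (fun γ => ⟨Finset.card_pair (hd γ).2.ne, by simp⟩)
    (fun γ γ' h => by
      apply hinj
      have h1 : d γ ∈ ({0, d γ'} : Finset ℕ) := by
        have h2 : d γ ∈ ({0, d γ} : Finset ℕ) := by simp
        have h3 : ({0, d γ} : Finset ℕ) = {0, d γ'} := h
        rwa [h3] at h2
      simp only [Finset.mem_insert, Finset.mem_singleton] at h1
      have := (hd γ).2
      rcases h1 with h1 | h1
      · omega
      · exact h1) τ a
    (fun j p hp => by
      rcases eq_or_ne p 2 with rfl | h2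
      · obtain ⟨x, hx⟩ := (hd (τ j)).1
        refine ⟨1, fun h hh => ?_⟩
        simp only [Finset.mem_insert, Finset.mem_singleton] at hh
        rcases hh with rfl | rfl
        · decide
        · rw [hx]
          intro hdvd
          omega
      · have h3 : 3 ≤ p := by
          rcases hp.two_le.lt_or_eq with h3 | h3
          · omega
          · exact absurd h3.symm h2
        by_contra hcon
        push Not at hcon
        obtain ⟨x1, hx1, hd1⟩ := hcon 1
        obtain ⟨x2, hx2, hd2⟩ := hcon 2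
        simp only [Finset.mem_insert, Finset.mem_singleton] at hx1 hx2
        rcases hx1 with rfl | rfl
        · have := Nat.le_of_dvd (by omega) hd1
          omega
        · rcases hx2 with rfl | rfl
          · have := Nat.le_of_dvd (by omega) hd2
            omega
          · have h4 : p ∣ 1 := by
              have h5 := (Nat.dvd_sub hd2 hd1)
              have h6 : 2 + d (τ j) - (1 + d (τ j)) = 1 := by omega
              rwa [h6] at h5
            have := Nat.le_of_dvd (by omega) h4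
            omega)
    (fun j h hh => by
      simp only [Finset.mem_insert, Finset.mem_singleton] at hh
      rcases hh with rfl | rfl
      · simpa using (ha j).1
      · exact (ha j).2)
    j₁ j₂ h₁ h₂ m1 m2 hne
  refine ⟨t, ht, c, hc, ν, hν, X0, fun X hX => (h X hX).trans ?_⟩
  have hfin : (Strings q (X ^ (1 / (t : ℝ))) X (ν * Real.log X ^ 2) d τ a j₁ j₂ h₁ h₂).Finite := by
    apply Set.Finite.subset (Set.finite_Iic ⌊2 * X⌋₊)
    rintro n ⟨-, h2, -⟩
    exact Nat.le_floor h2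
  rw [Nat.cast_le]
  apply Set.ncard_le_ncard _ hfin
  rintro n ⟨g1, g2, m, g3, g4, g5, g6, g7, g8, g9, g10⟩
  refine ⟨g1, g2, m, g3, ⟨g4, fun j => ⟨⟨?_, ?_⟩, ?_⟩, fun γ k hk hT => ?_⟩, g6, g8, g9⟩
  · have h0 : Rough _ _ := g7 j 0 (by simp)
    simpa using h0
  · have h0 : Rough _ _ := g7 j (d (τ j)) (by simp)
    simpa using h0
  · rw [g3]
    exact g5 j
  · rw [g3] at hk
    exact g10 γ k hk (fun h hh => by
      simp only [Finset.mem_insert, Finset.mem_singleton] at hh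
      have h0 : ∀ x : ℤ, Rough (X ^ (1 / (t : ℝ))) x → Pool.Agent.Q117.LF.Ro (X ^ (1 / (t : ℝ))) x := fun x hx => hx
      rcases hh with rfl | rfl
      · apply h0
        simpa using hT.1
      · apply h0
        exact hT.2)

end Pool.Agent.Results.MP_92ef0c_nt.StringsOfClasses
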